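import Mathlib

set_option autoImplicit false

namespace Pool.Agent.H.MP_babce1_al

structure TP (F : Type) [Field F] where
  A : Type
  [add : AddCommGroup A]
  [mod : Module F A]
  mul : A →ₗ[F] A →ₗ[F] A
  br : A →ₗ[F] A →ₗ[F] A
  mul_comm : ∀ x y, mul x y = mul y x
  mul_assoc : ∀ x y z, mul (mul x y) z = mul x (mul y z)
  br_self : ∀ x, br x x = 0
  jacobi : ∀ x y z, br x (br y z) + br y (br z x) + br z (br x y) = 0
  compat : ∀ x y z, (2 : F) • mul z (br x y) = br (mul z x) y + br x (mul z y)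

attribute [instance] TP.add TP.mod

variable {F : Type} [Field F]

def IsFree {ι : Type} (T : TP F) (x : ι → T.A) : Prop :=
  ∀ (B : TP F) (b : ι → B.A), ∃! φ : T.A →ₗ[F] B.A,
    (∀ u v, φ (T.mul u v) = B.mul (φ u) (φ v)) ∧ (∀ u v, φ (T.br u v) = B.br (φ u) (φ v)) ∧
      ∀ i, φ (x i) = b i

def subalg (T : TP F) (S : Set T.A) : Submodule F T.A :=
  sInf {U | S ⊆ U ∧ ∀ u ∈ U, ∀ v ∈ U, T.mul u v ∈ U ∧ T.br u v ∈ U}

def ideal (T : TP F) (f : T.A) : Submodule F T.A :=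
  sInf {U | f ∈ U ∧ ∀ a : T.A, ∀ u ∈ U, T.mul a u ∈ U ∧ T.br a u ∈ U}

end Pool.Agent.H.MP_babce1_al
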