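import Pool.Agent.H.MP_babce1_al.Defs

set_option autoImplicit false

namespace Pool.Agent.H.MP_babce1_al

variable {F : Type} [Field F]

inductive Mon (ι : Type) : Type
  | var : ι → Mon ι
  | node : Bool → Mon ι → Mon ι → Mon ι

variable {ι : Type}

def TP.o (B : TP F) : Bool → B.A →ₗ[F] B.A →ₗ[F] B.A
  | true => B.mul
  | false => B.br

def Mon.eval (B : TP F) (b : ι → B.A) : Mon ι → B.A
  | .var i => b i
  | .node k s t => B.o k (s.eval B b) (t.eval B b)

noncomputable def ev (B : TP F) (b : ι → B.A) : (Mon ι →₀ F) →ₗ[F] B.A :=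
  Finsupp.linearCombination F (Mon.eval B b)

noncomputable def prod (F ι : Type) [Field F] (k : Bool) :
    (Mon ι →₀ F) →ₗ[F] (Mon ι →₀ F) →ₗ[F] (Mon ι →₀ F) :=
  Finsupp.linearCombination F fun s => Finsupp.linearCombination F fun t =>
    Finsupp.single (Mon.node k s t) 1

lemma ev_prod (B : TP F) (b : ι → B.A) (k : Bool) (u v : Mon ι →₀ F) :
    ev B b (prod F ι k u v) = B.o k (ev B b u) (ev B b v) := by
  induction u using Finsupp.induction_linear with
  | zero => simp
  | add a c ha hc => simp [ha, hc]
  | single s r =>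
    induction v using Finsupp.induction_linear with
    | zero => simp
    | add a c ha hc => simp only [map_add, ha, hc]
    | single t r' =>
      simp only [ev, prod, Finsupp.linearCombination_single, map_smul, LinearMap.smul_apply,
        Mon.eval, one_smul]
      exact smul_comm _ _ _

noncomputable def NN (F ι : Type) [Field F] : Submodule F (Mon ι →₀ F) where
  carrier := {v | ∀ (B : TP F) (b : ι → B.A), ev B b v = 0}
  add_mem' := by intro u v hu hv B b; rw [map_add, hu, hv, add_zero]
  zero_mem' := by intro B b; simp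
  smul_mem' := by intro c v hv B b; rw [map_smul, hv, smul_zero]

noncomputable def evq (B : TP F) (b : ι → B.A) : ((Mon ι →₀ F) ⧸ NN F ι) →ₗ[F] B.A :=
  (NN F ι).liftQ (ev B b) fun _ hv => hv B b

noncomputable def prodq (F ι : Type) [Field F] (k : Bool) :
    ((Mon ι →₀ F) ⧸ NN F ι) →ₗ[F] ((Mon ι →₀ F) ⧸ NN F ι) →ₗ[F] ((Mon ι →₀ F) ⧸ NN F ι) :=
  LinearMap.liftQ₂ (NN F ι) (NN F ι) ((prod F ι k).compr₂ (NN F ι).mkQ)
    (by
      intro u hu
      rw [LinearMap.mem_ker]
      refine LinearMap.ext fun v => ?_
      simp only [LinearMap.compr₂_apply, Submodule.mkQ_apply, LinearMap.zero_apply,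
        Submodule.Quotient.mk_eq_zero]
      intro B b
      rw [ev_prod, hu B b]; simp)
    (by
      intro u hu
      rw [LinearMap.mem_ker]
      refine LinearMap.ext fun v => ?_
      simp only [LinearMap.flip_apply, LinearMap.compr₂_apply, Submodule.mkQ_apply,
        LinearMap.zero_apply, Submodule.Quotient.mk_eq_zero]
      intro B b
      rw [ev_prod, hu B b]; simp)

lemma evq_prod (B : TP F) (b : ι → B.A) (k : Bool) (u v : (Mon ι →₀ F) ⧸ NN F ι) :
    evq B b (prodq F ι k u v) = B.o k (evq B b u) (evq B b v) := by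
  obtain ⟨u, rfl⟩ := Submodule.Quotient.mk_surjective _ u
  obtain ⟨v, rfl⟩ := Submodule.Quotient.mk_surjective _ v
  exact ev_prod B b k u v

lemma q_ext (u v : (Mon ι →₀ F) ⧸ NN F ι)
    (h : ∀ (B : TP F) (b : ι → B.A), evq B b u = evq B b v) : u = v := by
  obtain ⟨u, rfl⟩ := Submodule.Quotient.mk_surjective _ u
  obtain ⟨v, rfl⟩ := Submodule.Quotient.mk_surjective _ v
  rw [Submodule.Quotient.eq]
  intro B b
  rw [map_sub, sub_eq_zero]
  exact h B b

noncomputable def FreeTP (F ι : Type) [Field F] : TP F where
  A := (Mon ι →₀ F) ⧸ NN F ι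
  mul := prodq F ι true
  br := prodq F ι false
  mul_comm x y := q_ext _ _ fun B b => by simp only [evq_prod, TP.o]; exact B.mul_comm _ _
  mul_assoc x y z := q_ext _ _ fun B b => by simp only [evq_prod, TP.o]; exact B.mul_assoc _ _ _
  br_self x := q_ext _ _ fun B b => by simp only [evq_prod, TP.o, map_zero]; exact B.br_self _
  jacobi x y z := q_ext _ _ fun B b => by
    simp only [evq_prod, TP.o, map_zero, map_add]; exact B.jacobi _ _ _
  compat x y z := q_ext _ _ fun B b => by
    simp only [evq_prod, TP.o, map_smul, map_add]; exact B.compat _ _ _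

noncomputable def gens (F ι : Type) [Field F] (i : ι) : (FreeTP F ι).A :=
  Submodule.Quotient.mk (Finsupp.single (Mon.var i) 1)

theorem isFree : IsFree (FreeTP F ι) (gens F ι) := by
  intro B b
  refine ⟨evq B b, ⟨fun u v => evq_prod B b true u v, fun u v => evq_prod B b false u v,
    fun i => ?_⟩, ?_⟩
  · change ev B b _ = _
    simp [ev, Mon.eval]
  · rintro φ ⟨h1, h2, h3⟩
    have hm : ∀ m : Mon ι, φ (Submodule.Quotient.mk (Finsupp.single m 1)) = m.eval B b := by
      intro m
      induction m with
      | var i => exact h3 i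
      | node k s t hs ht =>
        have e : (Submodule.Quotient.mk (Finsupp.single (Mon.node k s t) 1) :
            (Mon ι →₀ F) ⧸ NN F ι) = prodq F ι k (Submodule.Quotient.mk (Finsupp.single s 1))
              (Submodule.Quotient.mk (Finsupp.single t 1)) := by
          change _ = Submodule.Quotient.mk (prod F ι k _ _)
          simp [prod]
        rw [Mon.eval, ← hs, ← ht]
        cases k
        · exact (congrArg φ e).trans (h2 _ _)
        · exact (congrArg φ e).trans (h1 _ _)
    refine LinearMap.ext fun u => ?_
    obtain ⟨u, rfl⟩ := Submodule.Quotient.mk_surjective (NN F ι) u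
    change _ = ev B b u
    induction u using Finsupp.induction_linear with
    | zero => exact (map_zero φ).trans (map_zero _).symm
    | add a c ha hc =>
      rw [map_add, ← ha, ← hc, ← map_add]; rfl
    | single s r =>
      have : ev B b (Finsupp.single s r) = r • s.eval B b := by simp [ev]
      rw [this, ← hm, ← map_smul, ← Finsupp.smul_single_one]
      rfl

def matTP (F : Type) [Field F] : TP F where
  A := Matrix (Fin 3) (Fin 3) F
  mul := 0
  br := LinearMap.mul F _ - (LinearMap.mul F _).flip
  mul_comm := by simp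
  mul_assoc := by simp
  br_self := by simp
  jacobi := by intro x y z; simp [mul_sub, sub_mul, mul_assoc]; abel
  compat := by simp

def fieldTP (F : Type) [Field F] : TP F where
  A := F
  mul := LinearMap.mul F F
  br := 0
  mul_comm := by intro x y; simp [mul_comm]
  mul_assoc := by intro x y z; simp [mul_assoc]
  br_self := by simp
  jacobi := by simp
  compat := by simp

end Pool.Agent.H.MP_babce1_al
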