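import Pool.Agent.H.MP_babce1_al.Defs

set_option autoImplicit false

namespace Pool.Agent.H.MP_babce1_al

variable {F : Type} [Field F]

lemma skew (T : TP F) (x y : T.A) : T.br x y = - T.br y x := by
  have := T.br_self (x + y)
  simp only [map_add, LinearMap.add_apply, T.br_self] at this
  linear_combination (norm := module) this

lemma lielie (T : TP F) (x y z : T.A) :
    T.br (T.br x y) z = T.br x (T.br y z) - T.br y (T.br x z) := by
  have h := T.jacobi x y z
  rw [skew T z x, map_neg, skew T z (T.br x y)] at h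
  linear_combination (norm := module) -h

variable [CharZero F]

lemma hP (T : TP F) (z x y : T.A) :
    T.mul z (T.br x y) = (1 / 2 : F) • (T.br x (T.mul z y) - T.br y (T.mul z x)) := by
  have h := T.compat x y z
  rw [skew T (T.mul z x) y] at h
  linear_combination (norm := module) (1 / 2 : F) • h

lemma hP' (T : TP F) (z x y : T.A) :
    T.mul (T.br x y) z = (1 / 2 : F) • (T.br x (T.mul z y) - T.br y (T.mul z x)) := by
  rw [T.mul_comm, hP]

lemma hJ (T : TP F) (z a b c : T.A) :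
    T.br (T.br a b) (T.mul z c) + T.br (T.br b c) (T.mul z a) + T.br (T.br c a) (T.mul z b) = 0 := by
  have h := congrArg (T.mul z) (T.jacobi a b c)
  rw [map_add, map_add, hP T z a, hP T z b (T.br c a), hP T z c (T.br a b), hP, hP, hP] at h
  simp only [map_sub, map_smul, map_zero, lielie] at h ⊢
  linear_combination (norm := module) (-4 : F) • h

lemma hS (T : TP F) (a b c d : T.A) :
    T.br (T.br c a) (T.mul b d) - T.br (T.br c b) (T.mul a d)
      + (T.br (T.br d b) (T.mul a c) - T.br (T.br d a) (T.mul b c)) = 0 := by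
  have h := T.mul_comm (T.br a b) (T.br c d)
  rw [hP T (T.br a b), hP T (T.br c d), hP' T d a b, hP' T c a b, hP' T b c d, hP' T a c d,
    T.mul_comm d b, T.mul_comm d a, T.mul_comm c b, T.mul_comm c a] at h
  simp only [map_sub, map_smul, lielie] at h ⊢
  linear_combination (norm := module) (4 : F) • h

def op (T : TP F) (a b c : T.A) : T.A →ₗ[F] T.A :=
  (1 : F) • (T.br a ∘ₗ T.br a ∘ₗ T.br b ∘ₗ T.br c)
    + (-1 : F) • (T.br a ∘ₗ T.br a ∘ₗ T.br c ∘ₗ T.br b)
    + (-3 : F) • (T.br a ∘ₗ T.br b ∘ₗ T.br a ∘ₗ T.br c)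
    + (1 : F) • (T.br a ∘ₗ T.br b ∘ₗ T.br c ∘ₗ T.br a)
    + (3 : F) • (T.br a ∘ₗ T.br c ∘ₗ T.br a ∘ₗ T.br b)
    + (-1 : F) • (T.br a ∘ₗ T.br c ∘ₗ T.br b ∘ₗ T.br a)
    + (2 : F) • (T.br b ∘ₗ T.br a ∘ₗ T.br a ∘ₗ T.br c)
    + (-2 : F) • (T.br b ∘ₗ T.br c ∘ₗ T.br a ∘ₗ T.br a)
    + (-2 : F) • (T.br c ∘ₗ T.br a ∘ₗ T.br a ∘ₗ T.br b)
    + (2 : F) • (T.br c ∘ₗ T.br b ∘ₗ T.br a ∘ₗ T.br a)

lemma op_sq (T : TP F) (a b c y : T.A) : op T a b c (T.mul y y) = 0 := by
  have h0 := hJ T y (T.br a b) (T.br c y) a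
  have h1 := hJ T y (T.br a c) (T.br b y) a
  have h2 := hJ T y (T.br y (T.br a c)) a b
  have h3 := hJ T y (T.br y (T.br a b)) a c
  have h4 := hS T (T.br a (T.br c y)) a b y
  have h5 := congrArg (T.br a) (hS T b c (T.br a y) y)
  have h6 := hS T b c (T.br a (T.br a y)) y
  have h7 := hJ T y (T.br c (T.br a y)) a b
  have h8 := hJ T y (T.br a (T.br b y)) a c
  have h9 := congrArg (T.br a) (hJ T y (T.br c y) a b)
  have h10 := congrArg (T.br a) (hS T a c (T.br b y) y)
  have h11 := hJ T c (T.br a y) (T.br b y) a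
  have h12 := hJ T b (T.br a (T.br c y)) a y
  have h13 := hJ T (T.br a (T.br b y)) a c y
  have h14 := hJ T y (T.br a c) (T.br a y) b
  have h15 := hJ T y (T.br a b) (T.br a y) c
  have h16 := congrArg (T.br a) (congrArg (T.br y) (hS T a c b y))
  have h17 := congrArg (T.br a) (congrArg (T.br y) (hJ T b a c y))
  have h18 := hJ T y (T.br a (T.br a y)) b c
  have h19 := hJ T y (T.br b (T.br a y)) a c
  have h20 := congrArg (T.br c) (congrArg (T.br y) (hJ T a a b y))
  have h21 := congrArg (T.br y) (congrArg (T.br a) (hJ T y a b c))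
  have h22 := congrArg (T.br y) (hJ T y (T.br a c) a b)
  have h23 := congrArg (T.br y) (hJ T c (T.br a b) a y)
  have h24 := congrArg (T.br y) (hS T (T.br a b) a c y)
  have h25 := congrArg (T.br y) (congrArg (T.br c) (hJ T a a b y))
  simp only [hP, hP', lielie, map_add, map_sub, map_smul, map_zero, LinearMap.sub_apply,
    T.mul_comm y a, T.mul_comm y b, T.mul_comm y c, T.mul_comm b a, T.mul_comm c a,
    T.mul_comm c b] at h0 h1 h2 h3 h4 h5 h6 h7 h8 h9 h10 h11 h12 h13 h14 h15 h16 h17 h18 h19 h20 h21 h22 h23 h24 h25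
  simp only [op, LinearMap.add_apply, LinearMap.smul_apply, LinearMap.comp_apply]
  linear_combination (norm := module) (3 : F) • h0
    + (-2 : F) • h1
    + (4 : F) • h2
    + (-4 : F) • h3
    + (6 : F) • h4
    + (-1 : F) • h5
    + (2 : F) • h6
    + (-8 : F) • h7
    + (-6 : F) • h8
    + (-1 : F) • h9
    + (1 : F) • h10
    + (-1 : F) • h11
    + (6 : F) • h12
    + (2 : F) • h13
    + (2 : F) • h14
    + (-2 : F) • h15
    + (3 : F) • h16
    + (3 : F) • h17
    + (-4 : F) • h18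
    + (8 : F) • h19
    + (1 : F) • h20
    + (2 : F) • h21
    + (2 : F) • h22
    + (-2 : F) • h23
    + (-2 : F) • h24
    + (-1 : F) • h25

end Pool.Agent.H.MP_babce1_al
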