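import Pool.Agent.H.MP_babce1_al.Id
import Pool.Agent.H.MP_babce1_al.Free

set_option autoImplicit false

namespace Pool.Agent.H.MP_babce1_al

theorem main (F : Type) [Field F] [CharZero F] :
    ∃ (T : TP F) (x : Fin 5 → T.A), IsFree T x ∧
      ∃ f : T.A, f ∉ subalg T (Set.range fun i : Fin 4 => x i.castSucc) ∧
        ∃ g : T.A, g ≠ 0 ∧ g ∈ subalg T (Set.range fun i : Fin 4 => x i.castSucc) ∧
          g ∈ ideal T f := by
  obtain ⟨T, x, hx⟩ : ∃ (T : TP F) (x : Fin 5 → T.A), IsFree T x := ⟨_, _, isFree⟩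
  refine ⟨T, x, hx, x 3 - T.mul (x 4) (x 4), ?_, op T (x 0) (x 1) (x 2) (x 3), ?_, ?_, ?_⟩
  · intro h
    obtain ⟨φ, ⟨h1, h2, h3⟩, -⟩ := hx (fieldTP F) (![0, 0, 0, 0, 1] : Fin 5 → F)
    have := (Submodule.mem_sInf.1 h) (LinearMap.ker φ) ⟨by
      rintro _ ⟨i, rfl⟩
      rw [SetLike.mem_coe, LinearMap.mem_ker, h3]
      fin_cases i <;> rfl, by
      intro u hu v _
      rw [LinearMap.mem_ker] at hu
      rw [LinearMap.mem_ker, LinearMap.mem_ker, h1, h2, hu]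
      simp⟩
    rw [LinearMap.mem_ker, map_sub, h1, h3, h3] at this
    have h4 : (0 : F) - 1 * 1 = 0 := this
    simp at h4
  · intro h
    obtain ⟨a, b, c, u, w, e1, e2, e3, e4, e5, e6, hw⟩ : ∃ a b c u w : (matTP F).A,
        (matTP F).br a u = 0 ∧ (matTP F).br b u = w ∧ (matTP F).br c u = u ∧
        (matTP F).br a w = w ∧ (matTP F).br b w = 0 ∧ (matTP F).br c w = 0 ∧ w ≠ 0 := by
      have hb : ∀ u v w : Matrix (Fin 3) (Fin 3) F, u * v - v * u = w → (matTP F).br u v = w :=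
        fun _ _ _ h => h
      refine ⟨!![1, 0, 0; 0, 0, 0; 0, 0, 0], !![0, 1, 0; 0, 0, 0; 0, 0, 0],
        !![0, 0, 0; 0, 1, 0; 0, 0, 0], !![0, 0, 0; 0, 0, 1; 0, 0, 0], !![0, 0, 1; 0, 0, 0; 0, 0, 0],
        hb _ _ 0 ?_, hb _ _ _ ?_, hb _ _ _ ?_, hb _ _ _ ?_, hb _ _ 0 ?_, hb _ _ 0 ?_, ?_⟩
      any_goals (ext i j; fin_cases i <;> fin_cases j <;> simp)
      intro h0
      have h1 : (1 : F) = 0 := congrFun (congrFun h0 0) 2
      exact one_ne_zero h1
    obtain ⟨φ, ⟨h1, h2, h3⟩, -⟩ := hx (matTP F) ![a, b, c, u, 0]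
    have := congrArg φ h
    have x0 : φ (x 0) = a := h3 0
    have x1 : φ (x 1) = b := h3 1
    have x2 : φ (x 2) = c := h3 2
    have x3 : φ (x 3) = u := h3 3
    simp only [op, LinearMap.add_apply, LinearMap.smul_apply, LinearMap.comp_apply, map_add,
      map_smul, h2, map_zero, x0, x1, x2, x3, e1, e2, e3, e4, e5, e6] at this
    exact hw (by simpa using this)
  · refine Submodule.mem_sInf.2 fun U hU => ?_
    have h0 : x 0 ∈ U := hU.1 ⟨0, rfl⟩
    have h1 : x 1 ∈ U := hU.1 ⟨1, rfl⟩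
    have h2 : x 2 ∈ U := hU.1 ⟨2, rfl⟩
    have h3 : x 3 ∈ U := hU.1 ⟨3, rfl⟩
    have hb : ∀ u v, u ∈ U → v ∈ U → T.br u v ∈ U := fun u v hu hv => (hU.2 u hu v hv).2
    simp only [op, LinearMap.add_apply, LinearMap.smul_apply, LinearMap.comp_apply]
    repeat' first | assumption | apply U.add_mem | apply U.smul_mem | apply hb
  · refine Submodule.mem_sInf.2 fun U hU => ?_
    have e : op T (x 0) (x 1) (x 2) (x 3) = op T (x 0) (x 1) (x 2) (x 3 - T.mul (x 4) (x 4)) := by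
      rw [map_sub, op_sq, sub_zero]
    have h3 := hU.1
    have hb : ∀ u v, v ∈ U → T.br u v ∈ U := fun u v hv => (hU.2 u v hv).2
    rw [e]
    generalize x 3 - T.mul (x 4) (x 4) = f at h3
    simp only [op, LinearMap.add_apply, LinearMap.smul_apply, LinearMap.comp_apply]
    repeat' first | assumption | apply U.add_mem | apply U.smul_mem | apply hb

end Pool.Agent.H.MP_babce1_al
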